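import Mathlib
import Pool.Agent.H789R2.FR.L2
import Pool.Agent.TH335.RF.P2
import Pool.Agent.H438R2.BR.T10
set_option autoImplicit false

/-! Densities with sparse spectrum: decay, orthogonality. -/

namespace Q89.SP

open MeasureTheory Set Metric
open scoped ENNReal RealInnerProductSpace
open Pool.Agent.H789R2.FR (E sg T sg_finite)
open Pool.Agent.H438R2.BR (Phi)
open Complex (I)

variable {n : ℕ}

/-- Fourier transform of the sphere -/
noncomputable def K (x : E n) : ℂ := ∫ w, Complex.exp (-((⟪x, w⟫ : ℝ) : ℂ) * I) ∂(sg n)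

theorem K_decay (n : ℕ) (hn : 2 ≤ n) : ∃ C : ℝ, 0 < C ∧ ∀ x : E n,
    ‖K x‖ ≤ C * (1 + ‖x‖) ^ (-(((n : ℝ) - 1) / 2)) := by
  obtain ⟨c, C, hC, h⟩ := Pool.Agent.TH335.RF.phi_asym n hn
  have hn' : (2 : ℝ) ≤ n := by exact_mod_cast hn
  have hfin := sg_finite (n - 1)
  set σ : ℝ := (sg (n - 1)).real univ with hσ
  have hσ0 : 0 ≤ σ := measureReal_nonneg
  set s : ℝ := ((n : ℝ) - 1) / 2 with hs
  have hs0 : 0 < s := by rw [hs]; linarith
  refine ⟨σ * (Real.pi + 2 * ‖c‖ + C) * 2 ^ s + 1, by positivity, fun x => ?_⟩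
  unfold K
  rw [Pool.Agent.H438R2.BR.sphere_ft n hn x, norm_mul, Complex.norm_real,
    Real.norm_of_nonneg hσ0]
  have h0 := norm_nonneg x
  have key : ‖Phi n ‖x‖‖ ≤ (Real.pi + 2 * ‖c‖ + C) * 2 ^ s * (1 + ‖x‖) ^ (-s) := by
    have hpp : 0 < Real.pi := Real.pi_pos
    rcases le_or_gt ‖x‖ 1 with h1 | h1
    · have h2 := Pool.Agent.H438R2.BR.Phi_le n hn ‖x‖
      have h3 : 1 ≤ 2 ^ s * (1 + ‖x‖) ^ (-s) := by
        rw [Real.rpow_neg (by linarith), ← div_eq_mul_inv, one_le_div (by positivity)]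
        exact Real.rpow_le_rpow (by linarith) (by linarith) hs0.le
      have h4 : 0 ≤ ‖c‖ := norm_nonneg c
      calc ‖Phi n ‖x‖‖ ≤ Real.pi := h2
        _ ≤ (Real.pi + 2 * ‖c‖ + C) * 1 := by linarith
        _ ≤ (Real.pi + 2 * ‖c‖ + C) * (2 ^ s * (1 + ‖x‖) ^ (-s)) := by gcongr
        _ = _ := by ring
    · have ht : 0 < ‖x‖ := by linarith
      have h2 := h ‖x‖ ht
      have e1 : -((n : ℝ) - 1) / 2 = -s := by rw [hs]; ring
      rw [e1] at h2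
      have hp : 0 < ‖x‖ ^ (-s) := Real.rpow_pos_of_pos ht _
      have h3 : ‖Phi n ‖x‖‖ ≤ (2 * ‖c‖ + C) * ‖x‖ ^ (-s) := by
        have h4 : ‖((‖x‖ ^ (-s) : ℝ) : ℂ) * Pool.Agent.TH335.RF.mt c ‖x‖‖ ≤
            ‖x‖ ^ (-s) * (2 * ‖c‖) := by
          rw [norm_mul, Complex.norm_real, Real.norm_of_nonneg hp.le]
          exact mul_le_mul_of_nonneg_left (Pool.Agent.TH335.RF.norm_mt c _) hp.le
        have h5 : C * (‖x‖ ^ (-s) / (1 + ‖x‖)) ≤ C * ‖x‖ ^ (-s) := by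
          gcongr
          exact div_le_self hp.le (by linarith)
        calc ‖Phi n ‖x‖‖ = ‖(Phi n ‖x‖ - ((‖x‖ ^ (-s) : ℝ) : ℂ) *
              Pool.Agent.TH335.RF.mt c ‖x‖) + ((‖x‖ ^ (-s) : ℝ) : ℂ) *
              Pool.Agent.TH335.RF.mt c ‖x‖‖ := by rw [sub_add_cancel]
          _ ≤ C * (‖x‖ ^ (-s) / (1 + ‖x‖)) + ‖x‖ ^ (-s) * (2 * ‖c‖) :=
              (norm_add_le _ _).trans (add_le_add h2 h4)
          _ ≤ _ := by linarith
      have h6 : ‖x‖ ^ (-s) ≤ 2 ^ s * (1 + ‖x‖) ^ (-s) := by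
        have h7 : ((1 + ‖x‖) / 2) ^ (-s) = 2 ^ s * (1 + ‖x‖) ^ (-s) := by
          rw [Real.div_rpow (by linarith) (by norm_num), Real.rpow_neg (by norm_num : (0:ℝ) ≤ 2),
            div_inv_eq_mul, mul_comm]
        rw [← h7]
        exact Real.rpow_le_rpow_of_nonpos (by linarith) (by linarith) (by linarith)
      have h8 : 0 ≤ 2 ^ s * (1 + ‖x‖) ^ (-s) := by positivity
      calc ‖Phi n ‖x‖‖ ≤ (2 * ‖c‖ + C) * ‖x‖ ^ (-s) := h3
        _ ≤ (2 * ‖c‖ + C) * (2 ^ s * (1 + ‖x‖) ^ (-s)) := by gcongr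
        _ ≤ (Real.pi + 2 * ‖c‖ + C) * (2 ^ s * (1 + ‖x‖) ^ (-s)) := by gcongr; linarith
        _ = _ := by ring
  have h9 : 0 ≤ (1 + ‖x‖) ^ (-s) := by positivity
  calc σ * ‖Phi n ‖x‖‖ ≤ σ * ((Real.pi + 2 * ‖c‖ + C) * 2 ^ s * (1 + ‖x‖) ^ (-s)) := by gcongr
    _ = (σ * (Real.pi + 2 * ‖c‖ + C) * 2 ^ s) * (1 + ‖x‖) ^ (-s) := by ring
    _ ≤ _ := by gcongr; linarith

/-- at most `A R^β` of the points lie in any ball of radius `R ≥ 1` -/
def Sparse {ι : Type} (A β : ℝ) (η : ι → E n) : Prop :=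
  ∀ (x : E n) (R : ℝ), 1 ≤ R → ∀ F : Finset ι, (∀ i ∈ F, ‖x - η i‖ ≤ R) → (F.card : ℝ) ≤ A * R ^ β

theorem exists_scale (s : ℝ) (hs : 0 < s) (r : ℝ) (hr : 0 ≤ r) : ∃ k : ℕ, r ≤ 2 ^ k ∧
    (1 + r) ^ (-s) ≤ 2 ^ s * (2 ^ k : ℝ) ^ (-s) := by
  obtain ⟨k0, hk0⟩ := pow_unbounded_of_one_lt r (by norm_num : (1 : ℝ) < 2)
  classical
  have hex : ∃ k : ℕ, r ≤ 2 ^ k := ⟨k0, hk0.le⟩
  refine ⟨Nat.find hex, Nat.find_spec hex, ?_⟩
  rcases Nat.eq_zero_or_pos (Nat.find hex) with h | h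
  · rw [h, pow_zero, Real.one_rpow, mul_one]
    calc (1 + r) ^ (-s) ≤ 1 := Real.rpow_le_one_of_one_le_of_nonpos (by linarith) (by linarith)
      _ ≤ 2 ^ s := Real.one_le_rpow (by norm_num) hs.le
  · obtain ⟨m, hm⟩ : ∃ m, Nat.find hex = m + 1 := ⟨Nat.find hex - 1, by omega⟩
    have h1 : ¬ r ≤ 2 ^ m := Nat.find_min hex (by omega)
    rw [hm]
    push Not at h1
    have h2 : 2 ^ s * ((2 : ℝ) ^ (m + 1)) ^ (-s) = ((2 : ℝ) ^ m) ^ (-s) := by
      rw [pow_succ, Real.mul_rpow (by positivity) (by norm_num), mul_comm _ ((2 : ℝ) ^ (-s)),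
        ← mul_assoc, ← Real.rpow_add (by norm_num)]
      simp
    rw [h2]
    exact Real.rpow_le_rpow_of_nonpos (by positivity) (by linarith) (by linarith)

theorem sum_decay {ι : Type} (A β s : ℝ) (hA : 0 ≤ A) (hβs : β < s) (hs : 0 < s) (η : ι → E n)
    (h : Sparse A β η) (x : E n) (F : Finset ι) :
    ∑ i ∈ F, (1 + ‖x - η i‖) ^ (-s) ≤ A * (2 ^ s * (1 - 2 ^ (β - s))⁻¹) := by
  classical
  choose k hk1 hk2 using fun i => exists_scale s hs ‖x - η i‖ (norm_nonneg _)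
  have hmaps : ∀ i ∈ F, k i ∈ F.image k := fun i hi => Finset.mem_image_of_mem k hi
  set ρ : ℝ := 2 ^ (β - s) with hρ
  have hρ0 : 0 < ρ := by positivity
  have hρ1 : ρ < 1 := Real.rpow_lt_one_of_one_lt_of_neg (by norm_num) (by linarith)
  calc ∑ i ∈ F, (1 + ‖x - η i‖) ^ (-s) ≤ ∑ i ∈ F, 2 ^ s * (2 ^ (k i) : ℝ) ^ (-s) :=
        Finset.sum_le_sum fun i _ => hk2 i
    _ = ∑ m ∈ F.image k, ∑ i ∈ F with k i = m, 2 ^ s * (2 ^ (k i) : ℝ) ^ (-s) :=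
        (Finset.sum_fiberwise_of_maps_to hmaps _).symm
    _ ≤ ∑ m ∈ F.image k, A * (2 ^ s * ρ ^ m) := by
        apply Finset.sum_le_sum
        intro m _
        have h1 : ∑ i ∈ F with k i = m, 2 ^ s * (2 ^ (k i) : ℝ) ^ (-s) =
            ((F.filter fun i => k i = m).card : ℝ) * (2 ^ s * (2 ^ m : ℝ) ^ (-s)) := by
          rw [← nsmul_eq_mul, ← Finset.sum_const]
          refine Finset.sum_congr rfl fun i hi => ?_
          rw [(Finset.mem_filter.1 hi).2]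
        rw [h1]
        have h2 := h x (2 ^ m) (one_le_pow₀ (by norm_num)) (F.filter fun i => k i = m)
          (fun i hi => by
            have := hk1 i
            rwa [(Finset.mem_filter.1 hi).2] at this)
        have h3 : ((2 : ℝ) ^ m) ^ β * ((2 : ℝ) ^ m) ^ (-s) = ρ ^ m := by
          rw [← Real.rpow_add (by positivity), hρ, ← Real.rpow_natCast, ← Real.rpow_natCast,
            ← Real.rpow_mul (by norm_num), ← Real.rpow_mul (by norm_num)]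
          congr 1
          ring
        calc ((F.filter fun i => k i = m).card : ℝ) * (2 ^ s * (2 ^ m : ℝ) ^ (-s))
            ≤ (A * (2 ^ m) ^ β) * (2 ^ s * (2 ^ m : ℝ) ^ (-s)) := by gcongr
          _ = A * (2 ^ s * (((2 : ℝ) ^ m) ^ β * ((2 : ℝ) ^ m) ^ (-s))) := by ring
          _ = _ := by rw [h3]
    _ = A * (2 ^ s * ∑ m ∈ F.image k, ρ ^ m) := by rw [Finset.mul_sum, Finset.mul_sum]
    _ ≤ A * (2 ^ s * (1 - ρ)⁻¹) := by
        gcongr
        rw [← tsum_geometric_of_lt_one hρ0.le hρ1]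
        exact (summable_geometric_of_lt_one hρ0.le hρ1).sum_le_tsum _ fun _ _ => by positivity

/-- the density with coefficients `c` -/
noncomputable def G {ι : Type} (η : ι → E n) (c : ι → ℂ) (F : Finset ι) (w : E n) : ℂ :=
  ∑ i ∈ F, c i * Complex.exp (((⟪η i, w⟫ : ℝ) : ℂ) * I)

theorem ch_norm (a : ℝ) : ‖Complex.exp ((a : ℂ) * I)‖ = 1 := Complex.norm_exp_ofReal_mul_I a

theorem G_cont {ι : Type} (η : ι → E n) (c : ι → ℂ) (F : Finset ι) : Continuous (G η c F) := by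
  unfold G
  fun_prop

theorem G_le {ι : Type} (η : ι → E n) (c : ι → ℂ) (F : Finset ι) (w : E n) :
    ‖G η c F w‖ ≤ ∑ i ∈ F, ‖c i‖ := by
  unfold G
  refine (norm_sum_le _ _).trans (Finset.sum_le_sum fun i _ => ?_)
  rw [norm_mul, ch_norm, mul_one]

theorem exp_int (x : E n) : Integrable (fun w : E n => Complex.exp (-((⟪x, w⟫ : ℝ) : ℂ) * I))
    (sg n) := by
  have := sg_finite n
  refine Integrable.of_bound (C := 1) (by fun_prop) (Filter.Eventually.of_forall fun w => ?_)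
  rw [show -((⟪x, w⟫ : ℝ) : ℂ) * I = ((-⟪x, w⟫ : ℝ) : ℂ) * I by push_cast; ring, ch_norm]

theorem T_G {ι : Type} (η : ι → E n) (c : ι → ℂ) (F : Finset ι) (ξ : E n) :
    T (G η c F) ξ = ∑ i ∈ F, c i * K (ξ - η i) := by
  unfold T G K
  have h1 : ∀ w : E n, Complex.exp (-((⟪ξ, w⟫ : ℝ) : ℂ) * I) *
      ∑ i ∈ F, c i * Complex.exp (((⟪η i, w⟫ : ℝ) : ℂ) * I) =
      ∑ i ∈ F, c i * Complex.exp (-((⟪ξ - η i, w⟫ : ℝ) : ℂ) * I) := by
    intro w
    rw [Finset.mul_sum]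
    refine Finset.sum_congr rfl fun i _ => ?_
    rw [mul_left_comm, ← Complex.exp_add, inner_sub_left]
    congr 2
    push_cast
    ring
  simp only [h1]
  rw [integral_finsetSum _ fun i _ => (exp_int _).const_mul _]
  exact Finset.sum_congr rfl fun i _ => by rw [integral_const_mul]

theorem G_sq {ι : Type} (η : ι → E n) (c : ι → ℂ) (F : Finset ι) :
    ((∫ w, ‖G η c F w‖ ^ 2 ∂(sg n) : ℝ) : ℂ) =
      ∑ i ∈ F, ∑ j ∈ F, c i * (starRingEnd ℂ) (c j) * K (η j - η i) := by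
  rw [← integral_complex_ofReal]
  have h1 : ∀ w : E n, ((‖G η c F w‖ ^ 2 : ℝ) : ℂ) =
      ∑ i ∈ F, ∑ j ∈ F, c i * (starRingEnd ℂ) (c j) *
        Complex.exp (-((⟪η j - η i, w⟫ : ℝ) : ℂ) * I) := by
    intro w
    rw [← Complex.normSq_eq_norm_sq, ← Complex.mul_conj]
    unfold G
    rw [map_sum, Finset.sum_mul_sum]
    refine Finset.sum_congr rfl fun i _ => Finset.sum_congr rfl fun j _ => ?_
    rw [map_mul, ← Complex.exp_conj, map_mul, Complex.conj_I, Complex.conj_ofReal]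
    have : Complex.exp (-((⟪η j - η i, w⟫ : ℝ) : ℂ) * I) =
        Complex.exp (((⟪η i, w⟫ : ℝ) : ℂ) * I) * Complex.exp (((⟪η j, w⟫ : ℝ) : ℂ) * -I) := by
      rw [← Complex.exp_add, inner_sub_left]
      congr 1
      push_cast
      ring
    rw [this]
    ring
  simp only [h1]
  rw [integral_finsetSum _ fun i _ => integrable_finsetSum _ fun j _ => (exp_int _).const_mul _]
  refine Finset.sum_congr rfl fun i _ => ?_
  rw [integral_finsetSum _ fun j _ => (exp_int _).const_mul _]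
  exact Finset.sum_congr rfl fun j _ => by rw [integral_const_mul]; rfl

/-- almost orthogonality -/
theorem G_L2 (n : ℕ) (hn : 2 ≤ n) (β : ℝ) (hβ : β < ((n : ℝ) - 1) / 2) : ∃ C : ℝ, 0 < C ∧
    ∀ (A : ℝ), 0 ≤ A → ∀ (ι : Type) (η : ι → E n), Sparse A β η → ∀ (c : ι → ℂ) (F : Finset ι),
      ∫ w, ‖G η c F w‖ ^ 2 ∂(sg n) ≤ C * A * ∑ i ∈ F, ‖c i‖ ^ 2 := by
  obtain ⟨C, hC, hK⟩ := K_decay n hn
  have hn' : (2 : ℝ) ≤ n := by exact_mod_cast hn
  set s : ℝ := ((n : ℝ) - 1) / 2 with hs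
  have hs0 : 0 < s := by rw [hs]; linarith
  have hρ1 : (2 : ℝ) ^ (β - s) < 1 :=
    Real.rpow_lt_one_of_one_lt_of_neg (by norm_num) (by linarith)
  have hB : 0 < 2 ^ s * (1 - (2 : ℝ) ^ (β - s))⁻¹ := by
    have : 0 < 1 - (2 : ℝ) ^ (β - s) := by linarith
    positivity
  refine ⟨C * (2 ^ s * (1 - (2 : ℝ) ^ (β - s))⁻¹), by positivity, ?_⟩
  intro A hA ι η hη c F
  have h0 : 0 ≤ ∫ w, ‖G η c F w‖ ^ 2 ∂(sg n) := integral_nonneg fun _ => by positivity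
  have h1 : ∫ w, ‖G η c F w‖ ^ 2 ∂(sg n) = ‖((∫ w, ‖G η c F w‖ ^ 2 ∂(sg n) : ℝ) : ℂ)‖ := by
    rw [Complex.norm_real, Real.norm_of_nonneg h0]
  rw [h1, G_sq]
  set κ : ι → ι → ℝ := fun i j => C * (1 + ‖η i - η j‖) ^ (-s) with hκ
  have hκ0 : ∀ i j, 0 ≤ κ i j := fun i j => by rw [hκ]; positivity
  have hκs : ∀ i j, κ i j = κ j i := fun i j => by rw [hκ]; simp only; rw [norm_sub_rev]
  have hrow : ∀ i, ∑ j ∈ F, κ i j ≤ C * (A * (2 ^ s * (1 - (2 : ℝ) ^ (β - s))⁻¹)) := by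
    intro i
    rw [← Finset.mul_sum]
    exact mul_le_mul_of_nonneg_left (sum_decay A β s hA hβ hs0 η hη (η i) F) hC.le
  calc ‖∑ i ∈ F, ∑ j ∈ F, c i * (starRingEnd ℂ) (c j) * K (η j - η i)‖
      ≤ ∑ i ∈ F, ∑ j ∈ F, ‖c i‖ * ‖c j‖ * κ i j := by
        refine (norm_sum_le _ _).trans (Finset.sum_le_sum fun i _ => ?_)
        refine (norm_sum_le _ _).trans (Finset.sum_le_sum fun j _ => ?_)
        rw [norm_mul, norm_mul, RCLike.norm_conj, hκs]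
        gcongr
        exact hK _
    _ ≤ ∑ i ∈ F, ∑ j ∈ F, (‖c i‖ ^ 2 / 2 * κ i j + ‖c j‖ ^ 2 / 2 * κ i j) := by
        refine Finset.sum_le_sum fun i _ => Finset.sum_le_sum fun j _ => ?_
        have := hκ0 i j
        nlinarith [sq_nonneg (‖c i‖ - ‖c j‖)]
    _ = ∑ i ∈ F, ‖c i‖ ^ 2 * ∑ j ∈ F, κ i j := by
        simp only [Finset.sum_add_distrib]
        rw [Finset.sum_comm (f := fun i j => ‖c j‖ ^ 2 / 2 * κ i j), ← Finset.sum_add_distrib]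
        refine Finset.sum_congr rfl fun i _ => ?_
        rw [← Finset.sum_add_distrib, Finset.mul_sum]
        refine Finset.sum_congr rfl fun j _ => ?_
        rw [hκs j i]
        ring
    _ ≤ ∑ i ∈ F, ‖c i‖ ^ 2 * (C * (A * (2 ^ s * (1 - (2 : ℝ) ^ (β - s))⁻¹))) := by
        refine Finset.sum_le_sum fun i _ => ?_
        gcongr
        exact hrow i
    _ = _ := by rw [← Finset.sum_mul]; ring

end Q89.SP
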