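import Pool.Agent.Q89.SP.A1
set_option autoImplicit false

/-! Densities with sparse spectrum: dyadic cubes. -/

namespace Q89.SP

open MeasureTheory Set Metric
open scoped ENNReal RealInnerProductSpace
open Pool.Agent.H789R2.FR (E sg T sg_finite)
open Complex (I)

variable {n : ℕ}

/-- the dyadic cube of side `2^j` which contains `x` -/
noncomputable def ix (j : ℕ) (x : E n) : Fin n → ℤ := fun l => ⌊x l / 2 ^ j⌋

theorem ix_meas (j : ℕ) : Measurable (ix j : E n → (Fin n → ℤ)) := by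
  unfold ix
  refine measurable_pi_lambda _ fun l => ?_
  exact Int.measurable_floor.comp (by fun_prop)

/-- the cube is equal or adjacent -/
def nr (a b : Fin n → ℤ) : Prop := ∀ l, |a l - b l| ≤ 1

instance (a b : Fin n → ℤ) : Decidable (nr a b) := by unfold nr; infer_instance

/-- the parent cube -/
def hf (a : Fin n → ℤ) : Fin n → ℤ := fun l => a l / 2

theorem ix_succ (j : ℕ) (x : E n) : ix (j + 1) x = hf (ix j x) := by
  funext l
  unfold ix hf
  have h := Int.floor_div_natCast (x l / 2 ^ j) 2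
  push_cast at h
  rw [← h, pow_succ, div_div]

theorem nr_hf {a b : Fin n → ℤ} (h : nr a b) : nr (hf a) (hf b) := by
  intro l
  have := h l
  unfold hf
  rw [abs_le] at this ⊢
  omega

theorem norm_le_of_coord (x : E n) (r : ℝ) (hr : 0 ≤ r) (h : ∀ l, |x l| ≤ r) :
    ‖x‖ ≤ Real.sqrt n * r := by
  rw [EuclideanSpace.norm_eq]
  calc Real.sqrt (∑ l, ‖x l‖ ^ 2) ≤ Real.sqrt (∑ _l : Fin n, r ^ 2) := by
        apply Real.sqrt_le_sqrt
        exact Finset.sum_le_sum fun l _ => pow_le_pow_left₀ (norm_nonneg _) (h l) 2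
    _ = Real.sqrt n * r := by
        rw [Finset.sum_const, Finset.card_univ, Fintype.card_fin, nsmul_eq_mul,
          Real.sqrt_mul (by positivity), Real.sqrt_sq hr]

theorem dist_of_nr (j : ℕ) (x y : E n) (h : nr (ix j x) (ix j y)) :
    ‖y - x‖ ≤ Real.sqrt n * (2 * 2 ^ j) := by
  apply norm_le_of_coord _ _ (by positivity)
  intro l
  have h1 := h l
  unfold ix at h1
  have hp : (0 : ℝ) < 2 ^ j := by positivity
  have h2 := Int.floor_le (x l / 2 ^ j)
  have h3 := Int.lt_floor_add_one (x l / 2 ^ j)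
  have h4 := Int.floor_le (y l / 2 ^ j)
  have h5 := Int.lt_floor_add_one (y l / 2 ^ j)
  have h6 : |((⌊x l / 2 ^ j⌋ : ℤ) : ℝ) - ((⌊y l / 2 ^ j⌋ : ℤ) : ℝ)| ≤ 1 := by exact_mod_cast h1
  have h7 : |y l / 2 ^ j - x l / 2 ^ j| ≤ 2 := by
    rw [abs_le] at h6 ⊢
    constructor <;> linarith
  rw [← sub_div, abs_div, abs_of_pos hp, div_le_iff₀ hp] at h7
  exact h7

theorem dist_of_not_nr (j : ℕ) (x y : E n) (h : ¬ nr (ix j x) (ix j y)) : 2 ^ j ≤ ‖y - x‖ := by
  unfold nr at h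
  push Not at h
  obtain ⟨l, hl⟩ := h
  have hp : (0 : ℝ) < 2 ^ j := by positivity
  have h2 := Int.floor_le (x l / 2 ^ j)
  have h3 := Int.lt_floor_add_one (x l / 2 ^ j)
  have h4 := Int.floor_le (y l / 2 ^ j)
  have h5 := Int.lt_floor_add_one (y l / 2 ^ j)
  unfold ix at hl
  have h6 : 2 ≤ |(⌊x l / 2 ^ j⌋ : ℤ) - ⌊y l / 2 ^ j⌋| := by omega
  have h7 : (2 : ℝ) ≤ |((⌊x l / 2 ^ j⌋ : ℤ) : ℝ) - ((⌊y l / 2 ^ j⌋ : ℤ) : ℝ)| := by exact_mod_cast h6
  have h8 : 1 ≤ |y l / 2 ^ j - x l / 2 ^ j| := by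
    rw [le_abs] at h7 ⊢
    rcases h7 with h7 | h7
    · right; linarith
    · left; linarith
  rw [← sub_div, abs_div, abs_of_pos hp, le_div_iff₀ hp, one_mul] at h8
  have h9 : |y l - x l| ≤ ‖y - x‖ := by
    have := PiLp.norm_apply_le (y - x) l
    simpa using this
  exact h8.trans h9

/-- the corner of the cube -/
noncomputable def cor (j : ℕ) (Q : Fin n → ℤ) : E n := WithLp.toLp 2 fun l => (Q l : ℝ) * 2 ^ j

theorem dist_cor (j : ℕ) (x : E n) : ‖x - cor j (ix j x)‖ ≤ Real.sqrt n * 2 ^ j := by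
  apply norm_le_of_coord _ _ (by positivity)
  intro l
  have hp : (0 : ℝ) < 2 ^ j := by positivity
  have h2 := Int.floor_le (x l / 2 ^ j)
  have h3 := Int.lt_floor_add_one (x l / 2 ^ j)
  have e : (x - cor j (ix j x)) l = x l - (⌊x l / 2 ^ j⌋ : ℝ) * 2 ^ j := rfl
  rw [e, abs_le]
  rw [le_div_iff₀ hp] at h2
  rw [div_lt_iff₀ hp] at h3
  constructor <;> nlinarith

/-- the local `L²` estimate on a cube -/
theorem cube_L2 (n : ℕ) (hn : 2 ≤ n) : ∃ C : ℝ, 0 < C ∧ ∀ g : E n → ℂ, Measurable g →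
    (∃ M : ℝ, ∀ x, ‖g x‖ ≤ M) → ∀ (j : ℕ) (Q : Fin n → ℤ),
    ∫⁻ x in ix j ⁻¹' {Q}, ‖T g x‖ₑ ^ 2 ≤ ENNReal.ofReal (C * 2 ^ j * ∫ w, ‖g w‖ ^ 2 ∂(sg n)) := by
  obtain ⟨C, hC, h⟩ := Pool.Agent.H789R2.FR.L2_bound n hn
  have hn' : (2 : ℝ) ≤ n := by exact_mod_cast hn
  have hsn : 0 < Real.sqrt n := Real.sqrt_pos.2 (by linarith)
  refine ⟨Real.exp 1 * C * Real.sqrt n, by positivity, ?_⟩
  intro g hg hM j Q
  have hfin := sg_finite n
  set l : ℝ := Real.sqrt n * 2 ^ j with hl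
  have hl0 : 0 < l := by positivity
  have h1 := h g hg hM l hl0 (cor j Q)
  obtain ⟨M, hM⟩ := hM
  have hTm : Measurable (T g) := (Pool.Agent.H789R2.FR.L2.measurable_T g hg).measurable
  have hTb := Pool.Agent.H789R2.FR.L2.norm_T_le g M hM
  have hint : Integrable fun x : E n => Real.exp (-‖x - cor j Q‖ ^ 2 / l ^ 2) * ‖T g x‖ ^ 2 := by
    have h2 : Integrable fun x : E n => Real.exp (-‖x - cor j Q‖ ^ 2 / l ^ 2) := by
      have := (Pool.Agent.H789R2.FR.L2.integrable_W (n := n) hl0).comp_sub_right (cor j Q)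
      exact this
    refine h2.mul_bdd (c := (M * (sg n).real univ) ^ 2) (hTm.norm.pow_const 2).aestronglyMeasurable
      (Filter.Eventually.of_forall fun x => ?_)
    rw [Real.norm_of_nonneg (by positivity)]
    exact pow_le_pow_left₀ (norm_nonneg _) (hTb x) 2
  have hms : MeasurableSet (ix j ⁻¹' {Q} : Set (E n)) := ix_meas j (measurableSet_singleton _)
  calc ∫⁻ x in ix j ⁻¹' {Q}, ‖T g x‖ₑ ^ 2
      ≤ ∫⁻ x in ix j ⁻¹' {Q}, ENNReal.ofReal (Real.exp 1 *
        (Real.exp (-‖x - cor j Q‖ ^ 2 / l ^ 2) * ‖T g x‖ ^ 2)) := by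
        refine setLIntegral_mono' hms fun x hx => ?_
        have hx' : ix j x = Q := hx
        have h3 := dist_cor j x
        rw [hx'] at h3
        rw [← ofReal_norm, ← ENNReal.ofReal_pow (norm_nonneg _)]
        apply ENNReal.ofReal_le_ofReal
        have h4 : 1 ≤ Real.exp 1 * Real.exp (-‖x - cor j Q‖ ^ 2 / l ^ 2) := by
          rw [← Real.exp_add]
          apply Real.one_le_exp
          have : ‖x - cor j Q‖ ^ 2 / l ^ 2 ≤ 1 := by
            rw [div_le_one (by positivity)]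
            exact pow_le_pow_left₀ (norm_nonneg _) h3 2
          rw [neg_div]
          linarith
        have h5 : 0 ≤ ‖T g x‖ ^ 2 := by positivity
        nlinarith
    _ ≤ ∫⁻ x, ENNReal.ofReal (Real.exp 1 *
        (Real.exp (-‖x - cor j Q‖ ^ 2 / l ^ 2) * ‖T g x‖ ^ 2)) := setLIntegral_le_lintegral _ _
    _ = ENNReal.ofReal (∫ x, Real.exp 1 *
        (Real.exp (-‖x - cor j Q‖ ^ 2 / l ^ 2) * ‖T g x‖ ^ 2)) :=
        (ofReal_integral_eq_lintegral_ofReal (hint.const_mul _)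
          (Filter.Eventually.of_forall fun x => by positivity)).symm
    _ ≤ _ := by
        apply ENNReal.ofReal_le_ofReal
        rw [integral_const_mul]
        calc Real.exp 1 * ∫ x, Real.exp (-‖x - cor j Q‖ ^ 2 / l ^ 2) * ‖T g x‖ ^ 2
            ≤ Real.exp 1 * (C * l * ∫ w, ‖g w‖ ^ 2 ∂(sg n)) := by gcongr
          _ = _ := by rw [hl]; ring

end Q89.SP
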