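import Pool.Agent.Q89.SP.A2
set_option autoImplicit false

/-! Densities with sparse spectrum: the pieces. -/

namespace Q89.SP

open MeasureTheory Set Metric
open scoped ENNReal RealInnerProductSpace
open Pool.Agent.H789R2.FR (E sg T sg_finite)
open Complex (I)

variable {n : ℕ} {ι : Type}

/-- a piece: the indices depend on the cube only -/
noncomputable def Pc (η : ι → E n) (c : ι → ℂ) (S : (Fin n → ℤ) → Finset ι) (j : ℕ) (ξ : E n) : ℂ :=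
  ∑ i ∈ S (ix j ξ), c i * K (ξ - η i)

theorem K_meas : Measurable (K : E n → ℂ) := by
  have hfin := sg_finite n
  have h := Pool.Agent.H789R2.FR.L2.measurable_T (n := n) (fun _ => 1) measurable_const
  have e : (T (fun _ : E n => (1 : ℂ)) : E n → ℂ) = K := by
    funext x
    unfold T K
    simp
  rw [e] at h
  exact h.measurable

theorem aux1 (η : ι → E n) (c : ι → ℂ) (S : Finset ι) :
    Measurable fun y : E n => ∑ i ∈ S, c i * K (y - η i) := by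
  have hK : ∀ a : E n, Measurable fun x : E n => K (x - a) := fun a =>
    K_meas.comp (measurable_sub_const a)
  exact Finset.measurable_fun_sum S fun i _ => (hK (η i)).const_mul (c i)

theorem aux2 (η : ι → E n) (c : ι → ℂ) (S : (Fin n → ℤ) → Finset ι) :
    Measurable fun p : (Fin n → ℤ) × E n => ∑ i ∈ S p.1, c i * K (p.2 - η i) :=
  measurable_from_prod_countable_right
    (f := fun p : (Fin n → ℤ) × E n => ∑ i ∈ S p.1, c i * K (p.2 - η i)) fun Q => aux1 η c (S Q)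

theorem Pc_meas (η : ι → E n) (c : ι → ℂ) (S : (Fin n → ℤ) → Finset ι) (j : ℕ) :
    Measurable (Pc η c S j) := by
  have h2 : Measurable fun ξ : E n => (ix j ξ, ξ) := (ix_meas j).prodMk measurable_id
  have h4 := Measurable.comp (aux2 η c S) h2
  have h3 : (Pc η c S j) = (fun p : (Fin n → ℤ) × E n => ∑ i ∈ S p.1, c i * K (p.2 - η i)) ∘
      (fun ξ => (ix j ξ, ξ)) := by
    funext ξ
    unfold Pc
    rfl
  rw [h3]
  exact h4

theorem Pc_L2 (n : ℕ) (hn : 2 ≤ n) (β : ℝ) (hβ : β < ((n : ℝ) - 1) / 2) : ∃ C : ℝ, 0 < C ∧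
    ∀ (A : ℝ), 0 ≤ A → ∀ (ι : Type) (η : ι → E n), Sparse A β η → ∀ (c : ι → ℂ) (F : Finset ι)
      (S : (Fin n → ℤ) → Finset ι) (j N : ℕ), (∀ Q, S Q ⊆ F) →
      (∀ i ∈ F, ∃ B : Finset (Fin n → ℤ), B.card ≤ N ∧ ∀ Q, i ∈ S Q → Q ∈ B) →
      ∫⁻ ξ, ‖Pc η c S j ξ‖ₑ ^ 2 ≤ ENNReal.ofReal (C * A * 2 ^ j * N * ∑ i ∈ F, ‖c i‖ ^ 2) := by
  classical
  obtain ⟨C1, hC1, h1⟩ := cube_L2 n hn
  obtain ⟨C2, hC2, h2⟩ := G_L2 n hn β hβ
  refine ⟨C1 * C2, by positivity, ?_⟩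
  intro A hA ι η hη c F S j N hS hN
  have hfib : ∀ Q : Fin n → ℤ, ∫⁻ ξ in ix j ⁻¹' {Q}, ‖Pc η c S j ξ‖ₑ ^ 2 ≤
      ENNReal.ofReal (C1 * C2 * A * 2 ^ j) * ∑ i ∈ F,
        (if i ∈ S Q then ENNReal.ofReal (‖c i‖ ^ 2) else 0) := by
    intro Q
    have hms : MeasurableSet (ix j ⁻¹' {Q} : Set (E n)) := ix_meas j (measurableSet_singleton _)
    have e1 : ∫⁻ ξ in ix j ⁻¹' {Q}, ‖Pc η c S j ξ‖ₑ ^ 2 =
        ∫⁻ ξ in ix j ⁻¹' {Q}, ‖T (G η c (S Q)) ξ‖ₑ ^ 2 := by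
      refine setLIntegral_congr_fun hms fun ξ hξ => ?_
      have hx : ix j ξ = Q := hξ
      rw [T_G]
      unfold Pc
      rw [hx]
    rw [e1]
    refine (h1 _ (G_cont η c (S Q)).measurable ⟨_, G_le η c (S Q)⟩ j Q).trans ?_
    have h3 := h2 A hA ι η hη c (S Q)
    calc ENNReal.ofReal (C1 * 2 ^ j * ∫ w, ‖G η c (S Q) w‖ ^ 2 ∂(sg n))
        ≤ ENNReal.ofReal (C1 * 2 ^ j * (C2 * A * ∑ i ∈ S Q, ‖c i‖ ^ 2)) := by
          apply ENNReal.ofReal_le_ofReal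
          gcongr
      _ = ENNReal.ofReal (C1 * C2 * A * 2 ^ j) * ENNReal.ofReal (∑ i ∈ S Q, ‖c i‖ ^ 2) := by
          rw [← ENNReal.ofReal_mul (by positivity)]
          congr 1
          ring
      _ = _ := by
          congr 1
          rw [ENNReal.ofReal_sum_of_nonneg fun i _ => by positivity, ← Finset.sum_filter]
          refine Finset.sum_congr ?_ fun _ _ => rfl
          ext i
          simp only [Finset.mem_filter]
          exact ⟨fun h => ⟨hS Q h, h⟩, fun h => h.2⟩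
  have hun : (Set.univ : Set (E n)) = ⋃ Q, ix j ⁻¹' {Q} := by
    ext x
    simp
  have hdis : Pairwise (Function.onFun Disjoint fun Q : Fin n → ℤ => (ix j ⁻¹' {Q} : Set (E n))) := by
    intro Q Q' hQ
    refine Set.disjoint_left.2 fun x hx hx' => hQ ?_
    have h1 : ix j x = Q := hx
    have h2 : ix j x = Q' := hx'
    rw [← h1, h2]
  calc ∫⁻ ξ, ‖Pc η c S j ξ‖ₑ ^ 2 = ∑' Q, ∫⁻ ξ in ix j ⁻¹' {Q}, ‖Pc η c S j ξ‖ₑ ^ 2 := by
        rw [← setLIntegral_univ, hun, lintegral_iUnion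
          (fun Q => ix_meas j (measurableSet_singleton _)) hdis]
    _ ≤ ∑' Q, ENNReal.ofReal (C1 * C2 * A * 2 ^ j) * ∑ i ∈ F,
        (if i ∈ S Q then ENNReal.ofReal (‖c i‖ ^ 2) else 0) := ENNReal.tsum_le_tsum hfib
    _ = ENNReal.ofReal (C1 * C2 * A * 2 ^ j) * ∑ i ∈ F, ∑' Q,
        (if i ∈ S Q then ENNReal.ofReal (‖c i‖ ^ 2) else 0) := by
        rw [ENNReal.tsum_mul_left, Summable.tsum_finsetSum fun _ _ => ENNReal.summable]
    _ ≤ ENNReal.ofReal (C1 * C2 * A * 2 ^ j) * ∑ i ∈ F, (N : ℝ≥0∞) * ENNReal.ofReal (‖c i‖ ^ 2) := by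
        gcongr with i hi
        obtain ⟨B, hB1, hB2⟩ := hN i hi
        calc ∑' Q, (if i ∈ S Q then ENNReal.ofReal (‖c i‖ ^ 2) else 0)
            ≤ ∑' Q, (if Q ∈ B then ENNReal.ofReal (‖c i‖ ^ 2) else 0) := by
              refine ENNReal.tsum_le_tsum fun Q => ?_
              by_cases h : i ∈ S Q
              · rw [if_pos h, if_pos (hB2 Q h)]
              · rw [if_neg h]; exact zero_le
          _ = ∑ Q ∈ B, ENNReal.ofReal (‖c i‖ ^ 2) := by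
              rw [tsum_eq_sum (s := B) fun Q hQ => if_neg hQ]
              exact Finset.sum_congr rfl fun Q hQ => if_pos hQ
          _ = (B.card : ℝ≥0∞) * ENNReal.ofReal (‖c i‖ ^ 2) := by
              rw [Finset.sum_const, nsmul_eq_mul]
          _ ≤ _ := by gcongr
    _ = _ := by
        rw [← Finset.mul_sum, ← ENNReal.ofReal_sum_of_nonneg fun i _ => by positivity,
          ← ENNReal.ofReal_natCast, ← ENNReal.ofReal_mul (by positivity),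
          ← ENNReal.ofReal_mul (by positivity)]
        congr 1
        ring

theorem Pc_sup (η : ι → E n) (c : ι → ℂ) (F : Finset ι) (S : (Fin n → ℤ) → Finset ι) (j : ℕ)
    (hS : ∀ Q, S Q ⊆ F) (κ M : ℝ) (hκ : 0 ≤ κ) (hM : 0 ≤ M)
    (h1 : ∀ ξ, ∀ i ∈ S (ix j ξ), ‖K (ξ - η i)‖ ≤ κ)
    (h2 : ∀ ξ, ((S (ix j ξ)).card : ℝ) ≤ M) (ξ : E n) :
    ‖Pc η c S j ξ‖ ≤ κ * Real.sqrt M * Real.sqrt (∑ i ∈ F, ‖c i‖ ^ 2) := by
  have h3 : (∑ i ∈ S (ix j ξ), ‖c i‖) ^ 2 ≤ M * ∑ i ∈ F, ‖c i‖ ^ 2 := by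
    calc (∑ i ∈ S (ix j ξ), ‖c i‖) ^ 2 ≤ ((S (ix j ξ)).card : ℝ) * ∑ i ∈ S (ix j ξ), ‖c i‖ ^ 2 :=
          sq_sum_le_card_mul_sum_sq
      _ ≤ M * ∑ i ∈ F, ‖c i‖ ^ 2 := by
          gcongr
          · exact h2 ξ
          · exact hS _
  have h4 : ∑ i ∈ S (ix j ξ), ‖c i‖ ≤ Real.sqrt M * Real.sqrt (∑ i ∈ F, ‖c i‖ ^ 2) := by
    rw [← Real.sqrt_mul hM]
    exact Real.le_sqrt_of_sq_le h3
  calc ‖Pc η c S j ξ‖ ≤ ∑ i ∈ S (ix j ξ), ‖c i * K (ξ - η i)‖ := norm_sum_le _ _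
    _ ≤ ∑ i ∈ S (ix j ξ), ‖c i‖ * κ := by
        refine Finset.sum_le_sum fun i hi => ?_
        rw [norm_mul]
        exact mul_le_mul_of_nonneg_left (h1 ξ i hi) (norm_nonneg _)
    _ = κ * ∑ i ∈ S (ix j ξ), ‖c i‖ := by rw [← Finset.sum_mul, mul_comm]
    _ ≤ κ * (Real.sqrt M * Real.sqrt (∑ i ∈ F, ‖c i‖ ^ 2)) := by gcongr
    _ = _ := by ring

/-- interpolation -/
theorem interp (f : E n → ℂ) (q B D : ℝ) (hq : 2 < q) (hB : 0 ≤ B) (hD : 0 ≤ D)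
    (hs : ∀ ξ, ‖f ξ‖ ≤ B) (h2 : ∫⁻ ξ, ‖f ξ‖ₑ ^ 2 ≤ ENNReal.ofReal D) :
    eLpNorm f (ENNReal.ofReal q) ≤ ENNReal.ofReal ((B ^ (q - 2) * D) ^ (1 / q)) := by
  have hq0 : 0 < q := by linarith
  rw [eLpNorm_eq_lintegral_rpow_enorm_toReal (by simpa using hq0) ENNReal.ofReal_ne_top,
    ENNReal.toReal_ofReal hq0.le, ← ENNReal.ofReal_rpow_of_nonneg (by positivity) (by positivity)]
  apply ENNReal.rpow_le_rpow _ (by positivity)
  calc ∫⁻ ξ, ‖f ξ‖ₑ ^ q ≤ ∫⁻ ξ, ENNReal.ofReal (B ^ (q - 2)) * ‖f ξ‖ₑ ^ 2 := by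
        refine lintegral_mono fun ξ => ?_
        have e : ‖f ξ‖ₑ ^ q = ‖f ξ‖ₑ ^ (q - 2) * ‖f ξ‖ₑ ^ 2 := by
          rw [← ENNReal.rpow_natCast, ← ENNReal.rpow_add_of_nonneg _ _ (by linarith) (by norm_num)]
          congr 1
          push_cast
          ring
        simp only
        rw [e, ← ENNReal.ofReal_rpow_of_nonneg hB (by linarith)]
        gcongr
        rw [← ofReal_norm]
        exact ENNReal.ofReal_le_ofReal (hs ξ)
    _ = ENNReal.ofReal (B ^ (q - 2)) * ∫⁻ ξ, ‖f ξ‖ₑ ^ 2 :=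
        lintegral_const_mul' _ _ ENNReal.ofReal_ne_top
    _ ≤ ENNReal.ofReal (B ^ (q - 2)) * ENNReal.ofReal D := by gcongr
    _ = _ := by rw [← ENNReal.ofReal_mul (by positivity)]

end Q89.SP
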