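import Pool.Agent.Q89.SP.A3
set_option autoImplicit false

/-! Densities with sparse spectrum: finite sums. -/

namespace Q89.SP

open MeasureTheory Set Metric Filter Topology
open scoped ENNReal RealInnerProductSpace
open Pool.Agent.H789R2.FR (E sg T sg_finite)
open Complex (I)

variable {n : ℕ} {ι : Type}

open Classical in
/-- the near indices at level zero -/
noncomputable def S0 (η : ι → E n) (F : Finset ι) (Q : Fin n → ℤ) : Finset ι :=
  F.filter fun i => nr (ix 0 (η i)) Q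

open Classical in
/-- the indices near at level `j + 1` and not near at level `j` -/
noncomputable def S1 (η : ι → E n) (F : Finset ι) (j : ℕ) (Q : Fin n → ℤ) : Finset ι :=
  F.filter fun i => nr (ix (j + 1) (η i)) (hf Q) ∧ ¬ nr (ix j (η i)) Q

open Classical in
/-- the partial sum over near indices -/
noncomputable def PJ (η : ι → E n) (c : ι → ℂ) (F : Finset ι) (J : ℕ) (ξ : E n) : ℂ :=
  ∑ i ∈ F.filter (fun i => nr (ix J (η i)) (ix J ξ)), c i * K (ξ - η i)

theorem PJ_zero (η : ι → E n) (c : ι → ℂ) (F : Finset ι) : PJ η c F 0 = Pc η c (S0 η F) 0 := rfl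

theorem PJ_succ (η : ι → E n) (c : ι → ℂ) (F : Finset ι) (J : ℕ) :
    PJ η c F (J + 1) = PJ η c F J + Pc η c (S1 η F J) J := by
  classical
  funext ξ
  rw [Pi.add_apply]
  unfold PJ Pc S1
  rw [← ix_succ]
  have h : F.filter (fun i => nr (ix (J + 1) (η i)) (ix (J + 1) ξ)) =
      F.filter (fun i => nr (ix J (η i)) (ix J ξ)) ∪
      F.filter (fun i => nr (ix (J + 1) (η i)) (ix (J + 1) ξ) ∧ ¬ nr (ix J (η i)) (ix J ξ)) := by
    ext i
    simp only [Finset.mem_filter, Finset.mem_union]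
    constructor
    · rintro ⟨h1, h2⟩
      by_cases h3 : nr (ix J (η i)) (ix J ξ)
      · exact Or.inl ⟨h1, h3⟩
      · exact Or.inr ⟨h1, h2, h3⟩
    · rintro (⟨h1, h2⟩ | ⟨h1, h2, -⟩)
      · refine ⟨h1, ?_⟩
        rw [ix_succ, ix_succ]
        exact nr_hf h2
      · exact ⟨h1, h2⟩
  have hd : Disjoint (F.filter (fun i => nr (ix J (η i)) (ix J ξ)))
      (F.filter (fun i => nr (ix (J + 1) (η i)) (ix (J + 1) ξ) ∧ ¬ nr (ix J (η i)) (ix J ξ))) := by
    rw [Finset.disjoint_left]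
    intro i h1 h2
    exact (Finset.mem_filter.1 h2).2.2 (Finset.mem_filter.1 h1).2
  convert Finset.sum_union hd using 2

theorem PJ_eq (η : ι → E n) (c : ι → ℂ) (F : Finset ι) (J : ℕ) :
    PJ η c F J = Pc η c (S0 η F) 0 + ∑ j ∈ Finset.range J, Pc η c (S1 η F j) j := by
  induction J with
  | zero => rw [PJ_zero, Finset.sum_range_zero, add_zero]
  | succ J ih => rw [PJ_succ, ih, Finset.sum_range_succ, add_assoc]

theorem ix_small (x : E n) (J : ℕ) (h : ∀ l, |x l| < 2 ^ J) (l : Fin n) :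
    ix J x l = 0 ∨ ix J x l = -1 := by
  have hp : (0 : ℝ) < 2 ^ J := by positivity
  have h1 : |x l / 2 ^ J| < 1 := by
    rw [abs_div, abs_of_pos hp, div_lt_one hp]; exact h l
  rw [abs_lt] at h1
  unfold ix
  rcases le_or_gt 0 (x l / 2 ^ J) with h2 | h2
  · left
    rw [Int.floor_eq_zero_iff]
    exact ⟨h2, h1.2⟩
  · right
    rw [Int.floor_eq_iff]
    push_cast
    constructor <;> linarith

theorem exists_J (x : E n) : ∃ J : ℕ, ∀ J' ≥ J, ∀ l, |x l| < 2 ^ J' := by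
  obtain ⟨J, hJ⟩ := pow_unbounded_of_one_lt ‖x‖ (by norm_num : (1 : ℝ) < 2)
  refine ⟨J, fun J' hJ' l => ?_⟩
  have h1 : |x l| ≤ ‖x‖ := by
    have := PiLp.norm_apply_le x l
    simpa using this
  calc |x l| ≤ ‖x‖ := h1
    _ < 2 ^ J := hJ
    _ ≤ 2 ^ J' := pow_le_pow_right₀ (by norm_num) hJ'

theorem PJ_lim (η : ι → E n) (c : ι → ℂ) (F : Finset ι) (ξ : E n) :
    Tendsto (fun J => PJ η c F J ξ) atTop (𝓝 (T (G η c F) ξ)) := by
  classical
  rw [T_G]
  choose Jf hJf using fun x : E n => exists_J x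
  apply tendsto_const_nhds.congr'
  filter_upwards [eventually_ge_atTop (max (Jf ξ) (F.sup fun i => Jf (η i)))] with J hJ
  unfold PJ
  refine Finset.sum_congr ?_ fun _ _ => rfl
  symm
  rw [Finset.filter_eq_self]
  intro i hi l
  have h1 := ix_small ξ J (hJf ξ J ((le_max_left _ _).trans hJ)) l
  have h2 := ix_small (η i) J (hJf (η i) J
    ((Finset.le_sup (f := fun i => Jf (η i)) hi).trans ((le_max_right _ _).trans hJ))) l
  rw [abs_le]
  omega

theorem card_S0 (η : ι → E n) (F : Finset ι) (i : ι) : ∃ B : Finset (Fin n → ℤ),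
    B.card ≤ 6 ^ n ∧ ∀ Q, i ∈ S0 η F Q → Q ∈ B := by
  classical
  refine ⟨Fintype.piFinset fun l => Finset.Icc (ix 0 (η i) l - 1) (ix 0 (η i) l + 1), ?_, ?_⟩
  · rw [Fintype.card_piFinset]
    calc ∏ l : Fin n, (Finset.Icc (ix 0 (η i) l - 1) (ix 0 (η i) l + 1)).card ≤
        ∏ _l : Fin n, 6 := by
          refine Finset.prod_le_prod' fun l _ => ?_
          rw [Int.card_Icc]
          omega
      _ = 6 ^ n := by simp
  · intro Q hQ
    unfold S0 at hQ
    have h := (Finset.mem_filter.1 hQ).2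
    rw [Fintype.mem_piFinset]
    intro l
    have := h l
    rw [abs_le] at this
    rw [Finset.mem_Icc]
    omega

theorem card_S1 (η : ι → E n) (F : Finset ι) (j : ℕ) (i : ι) : ∃ B : Finset (Fin n → ℤ),
    B.card ≤ 6 ^ n ∧ ∀ Q, i ∈ S1 η F j Q → Q ∈ B := by
  classical
  refine ⟨Fintype.piFinset fun l => Finset.Icc (2 * (ix (j + 1) (η i) l - 1))
    (2 * (ix (j + 1) (η i) l + 1) + 1), ?_, ?_⟩
  · rw [Fintype.card_piFinset]
    calc ∏ l : Fin n, (Finset.Icc (2 * (ix (j + 1) (η i) l - 1))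
        (2 * (ix (j + 1) (η i) l + 1) + 1)).card ≤ ∏ _l : Fin n, 6 := by
          refine Finset.prod_le_prod' fun l _ => ?_
          rw [Int.card_Icc]
          omega
      _ = 6 ^ n := by simp
  · intro Q hQ
    unfold S1 at hQ
    have h := (Finset.mem_filter.1 hQ).2.1
    rw [Fintype.mem_piFinset]
    intro l
    have := h l
    unfold hf at this
    rw [abs_le] at this
    rw [Finset.mem_Icc]
    omega

theorem bd_S0 {A β : ℝ} {η : ι → E n} (hη : Sparse A β η) (hn : 1 ≤ n) (F : Finset ι) (ξ : E n) :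
    ((S0 η F (ix 0 ξ)).card : ℝ) ≤ A * (4 * Real.sqrt n) ^ β := by
  have hsn : 1 ≤ Real.sqrt n := Real.one_le_sqrt.2 (by exact_mod_cast hn)
  refine hη ξ (4 * Real.sqrt n) (by linarith) _ fun i hi => ?_
  unfold S0 at hi
  have h := dist_of_nr 0 (η i) ξ (Finset.mem_filter.1 hi).2
  rw [pow_zero] at h
  linarith

theorem bd_S1 {A β : ℝ} {η : ι → E n} (hη : Sparse A β η) (hn : 1 ≤ n) (F : Finset ι) (j : ℕ)
    (ξ : E n) : ((S1 η F j (ix j ξ)).card : ℝ) ≤ A * (4 * Real.sqrt n * 2 ^ j) ^ β := by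
  have hsn : 1 ≤ Real.sqrt n := Real.one_le_sqrt.2 (by exact_mod_cast hn)
  have h2 : (1 : ℝ) ≤ 2 ^ j := one_le_pow₀ (by norm_num)
  refine hη ξ (4 * Real.sqrt n * 2 ^ j) (by nlinarith) _ fun i hi => ?_
  unfold S1 at hi
  have h3 := (Finset.mem_filter.1 hi).2.1
  rw [← ix_succ] at h3
  have h := dist_of_nr (j + 1) (η i) ξ h3
  rw [pow_succ] at h
  linarith

/-- finite sums -/
theorem fin_bound (n : ℕ) (hn : 2 ≤ n) (β q A : ℝ) (hβ : β < ((n : ℝ) - 1) / 2)
    (hq : 2 < q) (hqβ : 2 < (q - 2) * ((n : ℝ) - 1 - β)) (hA : 0 ≤ A) : ∃ C : ℝ, 0 < C ∧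
    ∀ (ι : Type) (η : ι → E n), Sparse A β η → ∀ (c : ι → ℂ) (F : Finset ι),
      eLpNorm (T (G η c F)) (ENNReal.ofReal q) ≤
        ENNReal.ofReal (C * Real.sqrt (∑ i ∈ F, ‖c i‖ ^ 2)) := by
  classical
  obtain ⟨C1, hC1, h1⟩ := Pc_L2 n hn β hβ
  obtain ⟨C2, hC2, h2⟩ := K_decay n hn
  have hn' : (2 : ℝ) ≤ n := by exact_mod_cast hn
  have hq0 : 0 < q := by linarith
  set s : ℝ := ((n : ℝ) - 1) / 2 with hs
  have hs0 : 0 < s := by rw [hs]; linarith
  have hsn : 1 ≤ Real.sqrt n := Real.one_le_sqrt.2 (by linarith)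
  set M0 : ℝ := A * (4 * Real.sqrt n) ^ β with hM0
  have hM00 : 0 ≤ M0 := by positivity
  set b : ℝ := (C2 * Real.sqrt M0) ^ (q - 2) * (C1 * A * 6 ^ n) with hb
  have hb0 : 0 ≤ b := by positivity
  set e : ℝ := (1 - (s - β / 2) * (q - 2)) / q with he
  have he0 : e < 0 := by
    rw [he]
    apply div_neg_of_neg_of_pos _ hq0
    have : (s - β / 2) * (q - 2) = (q - 2) * ((n : ℝ) - 1 - β) / 2 := by rw [hs]; ring
    rw [this]
    linarith
  set ρ : ℝ := 2 ^ e with hρ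
  have hρ0 : 0 < ρ := by positivity
  have hρ1 : ρ < 1 := Real.rpow_lt_one_of_one_lt_of_neg (by norm_num) he0
  have h1ρ : 0 < 1 - ρ := by linarith
  refine ⟨b ^ (1 / q) * (1 + (1 - ρ)⁻¹) + 1, by positivity, ?_⟩
  intro ι η hη c F
  set k : ℝ := Real.sqrt (∑ i ∈ F, ‖c i‖ ^ 2) with hk
  have hk0 : 0 ≤ k := Real.sqrt_nonneg _
  have hk2 : ∑ i ∈ F, ‖c i‖ ^ 2 = k ^ 2 := (Real.sq_sqrt (by positivity)).symm
  -- a piece
  have hpiece : ∀ (S : (Fin n → ℤ) → Finset ι) (j : ℕ), (∀ Q, S Q ⊆ F) →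
      (∀ i ∈ F, ∃ B : Finset (Fin n → ℤ), B.card ≤ 6 ^ n ∧ ∀ Q, i ∈ S Q → Q ∈ B) →
      (∀ ξ, ((S (ix j ξ)).card : ℝ) ≤ A * (4 * Real.sqrt n * 2 ^ j) ^ β) →
      (∀ ξ, ∀ i ∈ S (ix j ξ), ‖K (ξ - η i)‖ ≤ C2 * (2 ^ j : ℝ) ^ (-s)) →
      eLpNorm (Pc η c S j) (ENNReal.ofReal q) ≤ ENNReal.ofReal (b ^ (1 / q) * k * ρ ^ j) := by
    intro S j hS hN hcard hK
    have hp : (0 : ℝ) < 2 ^ j := by positivity
    have hsup := Pc_sup η c F S j hS (C2 * (2 ^ j : ℝ) ^ (-s))
      (A * (4 * Real.sqrt n * 2 ^ j) ^ β) (by positivity) (by positivity) hK hcard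
    have hl2 := h1 A hA ι η hη c F S j (6 ^ n) hS hN
    rw [hk2] at hl2
    rw [← hk] at hsup
    refine (interp _ q _ _ hq (by positivity) (by positivity) hsup hl2).trans ?_
    apply ENNReal.ofReal_le_ofReal
    apply le_of_eq
    have e1 : Real.sqrt (A * (4 * Real.sqrt n * 2 ^ j) ^ β) =
        Real.sqrt M0 * (2 ^ j : ℝ) ^ (β / 2) := by
      rw [Real.mul_rpow (by positivity) hp.le, ← mul_assoc, ← hM0, Real.sqrt_mul hM00,
        Real.sqrt_eq_rpow ((2 ^ j : ℝ) ^ β), ← Real.rpow_mul hp.le]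
      congr 2
      ring
    have e2 : C2 * (2 ^ j : ℝ) ^ (-s) * Real.sqrt (A * (4 * Real.sqrt n * 2 ^ j) ^ β) * k =
        (C2 * Real.sqrt M0) * (2 ^ j : ℝ) ^ (β / 2 - s) * k := by
      rw [e1, show β / 2 - s = -s + β / 2 by ring, Real.rpow_add hp]
      ring
    have e3 : ((C2 * Real.sqrt M0) * (2 ^ j : ℝ) ^ (β / 2 - s) * k) ^ (q - 2) *
        (C1 * A * 2 ^ j * ((6 ^ n : ℕ) : ℝ) * k ^ 2) =
        b * (2 ^ j : ℝ) ^ (e * q) * k ^ q := by
      rw [Real.mul_rpow (by positivity) hk0, Real.mul_rpow (by positivity) (by positivity),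
        ← Real.rpow_mul hp.le, hb]
      have e4 : (2 ^ j : ℝ) ^ (e * q) = (2 ^ j : ℝ) ^ ((β / 2 - s) * (q - 2)) * 2 ^ j := by
        have : e * q = (β / 2 - s) * (q - 2) + 1 := by
          rw [he, div_mul_cancel₀ _ hq0.ne']
          ring
        rw [this, Real.rpow_add hp, Real.rpow_one]
      have e5 : k ^ q = k ^ (q - 2) * k ^ 2 := by
        rcases hk0.eq_or_lt with h | h
        · rw [← h, Real.zero_rpow hq0.ne']
          ring
        · rw [← Real.rpow_natCast k 2, ← Real.rpow_add h]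
          congr 1
          push_cast
          ring
      rw [e4, e5]
      push_cast
      ring
    rw [e2, e3, Real.mul_rpow (by positivity) (by positivity),
      Real.mul_rpow hb0 (by positivity), ← Real.rpow_mul hp.le, ← Real.rpow_mul hk0]
    rw [mul_one_div_cancel hq0.ne', Real.rpow_one, mul_assoc e, mul_one_div_cancel hq0.ne',
      mul_one]
    have e6 : (2 ^ j : ℝ) ^ e = ρ ^ j := by
      rw [hρ, ← Real.rpow_natCast, ← Real.rpow_natCast, ← Real.rpow_mul (by norm_num),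
        ← Real.rpow_mul (by norm_num), mul_comm]
    rw [e6]
    ring
  have hdec : ∀ x : E n, ∀ r : ℝ, 0 < r → r ≤ 1 + ‖x‖ → ‖K x‖ ≤ C2 * r ^ (-s) := by
    intro x r hr hx
    refine (h2 x).trans ?_
    gcongr C2 * ?_
    exact Real.rpow_le_rpow_of_nonpos hr hx (by linarith)
  have hp0 := hpiece (S0 η F) 0 (fun Q => Finset.filter_subset _ _) (fun i _ => card_S0 η F i)
    (fun ξ => by
      have := bd_S0 hη (by omega) F ξ
      rwa [pow_zero, mul_one])
    (fun ξ i _ => by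
      apply hdec _ _ (by positivity)
      rw [pow_zero]
      linarith [norm_nonneg (ξ - η i)])
  rw [pow_zero, mul_one] at hp0
  have hp1 : ∀ j, eLpNorm (Pc η c (S1 η F j) j) (ENNReal.ofReal q) ≤
      ENNReal.ofReal (b ^ (1 / q) * k * ρ ^ j) := by
    intro j
    refine hpiece (S1 η F j) j (fun Q => Finset.filter_subset _ _) (fun i _ => card_S1 η F j i)
      (fun ξ => bd_S1 hη (by omega) F j ξ) (fun ξ i hi => ?_)
    apply hdec _ _ (by positivity)
    unfold S1 at hi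
    have := dist_of_not_nr j (η i) ξ (Finset.mem_filter.1 hi).2.2
    linarith
  have hPJ : ∀ J, eLpNorm (PJ η c F J) (ENNReal.ofReal q) ≤
      ENNReal.ofReal ((b ^ (1 / q) * (1 + (1 - ρ)⁻¹) + 1) * k) := by
    intro J
    rw [PJ_eq]
    have hq1 : 1 ≤ ENNReal.ofReal q := by
      rw [ENNReal.one_le_ofReal]; linarith
    refine (eLpNorm_add_le (Pc_meas _ _ _ _).aestronglyMeasurable
      (Finset.aestronglyMeasurable_sum _ fun j _ => (Pc_meas _ _ _ _).aestronglyMeasurable)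
      hq1).trans ?_
    refine (add_le_add hp0 (eLpNorm_sum_le
      (fun j _ => (Pc_meas _ _ _ _).aestronglyMeasurable) hq1)).trans ?_
    refine (add_le_add le_rfl (Finset.sum_le_sum fun j _ => hp1 j)).trans ?_
    rw [← ENNReal.ofReal_sum_of_nonneg fun j _ => by positivity,
      ← ENNReal.ofReal_add (by positivity) (Finset.sum_nonneg fun j _ => by positivity)]
    apply ENNReal.ofReal_le_ofReal
    rw [← Finset.mul_sum]
    have h5 : ∑ j ∈ Finset.range J, ρ ^ j ≤ (1 - ρ)⁻¹ := by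
      rw [← tsum_geometric_of_lt_one hρ0.le hρ1]
      exact (summable_geometric_of_lt_one hρ0.le hρ1).sum_le_tsum _ fun _ _ => by positivity
    have h6 : 0 ≤ b ^ (1 / q) * k := by positivity
    nlinarith
  have hlim := Lp.eLpNorm_lim_le_liminf_eLpNorm (μ := (volume : Measure (E n)))
    (p := ENNReal.ofReal q) (f := fun J => PJ η c F J) (fun J => by
      rw [PJ_eq]
      exact ((Pc_meas _ _ _ _).aestronglyMeasurable).add
        (Finset.aestronglyMeasurable_sum _ fun j _ => (Pc_meas _ _ _ _).aestronglyMeasurable))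
    (T (G η c F)) (Filter.Eventually.of_forall fun ξ => PJ_lim η c F ξ)
  refine hlim.trans ?_
  refine (Filter.liminf_le_liminf (Filter.Eventually.of_forall hPJ)).trans ?_
  rw [Filter.liminf_const]

end Q89.SP
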